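import Mathlib
import Pool.Agent.Helper29.EMT.Defs
import Pool.Agent.Helper29.EMT.Opp
import Pool.Agent.Helper29.EMT.FamA
import Pool.Agent.Helper29.EMT.FamB
import Pool.Agent.Helper29.EMT.FamC
import Pool.Agent.Helper29.EMT.FamD
import Pool.Agent.Helper29.EMT.FamS
import Pool.Agent.Helper29.EMT.FamTwo
import Pool.Agent.Helper29.EMT.FamT0
import Pool.Agent.Helper29.EMT.FamT5
import Pool.Agent.Helper29.EMT.FourFour
import Pool.Agent.Helper29.EMT.PathG
import Pool.Agent.Helper46.EMT.Words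
import Pool.Agent.Helper46.EMT.FamB6
import Pool.Agent.Helper36.EMT.C11

/-!
# MP_5186fc_co, Q1 : edge-magic total labelings of grids

Every grid `P_m □ P_n`, `m, n ≥ 1`, is edge-magic total.
-/

set_option autoImplicit false

open SimpleGraph

namespace Pool.Agent.Results.MP_5186fc_co.AllGrids

open Pool.Agent.Helper29.EMT

/-- both dimensions `11` modulo `12` -/
theorem grid_eleven (m n : ℕ) (hm : m % 12 = 11) (hn : n % 12 = 11) : IsEMT (grid m n) := by
  obtain ⟨h, hh⟩ : ∃ h, h = m / 2 := ⟨_, rfl⟩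
  have hmh : m = 2 * h + 1 := by omega
  rw [hmh]
  by_cases h1 : n = 11
  · rw [h1]; exact Pool.Agent.Helper46.EMT.isEMT_11 h (by omega)
  by_cases h2 : n = 23
  · rw [h2]; exact Pool.Agent.Helper46.EMT.isEMT_23 h (by omega)
  · have h3 := Pool.Agent.Helper36.EMT.isEMT_C11 (n / 12 + 1) h (by omega) (by omega)
    rwa [show 12 * (n / 12 + 1) - 1 = n by omega] at h3

/-- both dimensions `6` modulo `12`, at least `18` -/
theorem grid_six (m n : ℕ) (hm : m % 12 = 6) (hn : n % 12 = 6) (hn' : 18 ≤ n) :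
    IsEMT (grid m n) := by
  obtain ⟨h, hh⟩ : ∃ h, h = m / 2 := ⟨_, rfl⟩
  have hmh : m = 2 * h := by omega
  rw [hmh]
  by_cases h1 : n = 18
  · rw [h1]; exact Pool.Agent.Helper46.EMT.isEMT_18 h (by omega)
  by_cases h2 : n = 30
  · rw [h2]; exact Pool.Agent.Helper46.EMT.isEMT_30 h (by omega)
  by_cases h3 : n = 42
  · rw [h3]; exact Pool.Agent.Helper46.EMT.isEMT_42 h (by omega)
  · have h4 := Pool.Agent.Helper46.EMT.isEMT_B6 h (n / 12 - 4) (by omega)
    rwa [show 12 * (n / 12 - 4 + 4) + 6 = n by omega] at h4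

/-- both dimensions odd -/
theorem grid_odd (m n : ℕ) (hm : 3 ≤ m) (hn : 3 ≤ n) (hmo : m % 2 = 1) (hno : n % 2 = 1) :
    IsEMT (grid m n) := by
  by_cases h0 : m % 12 = 11 ∧ n % 12 = 11
  · exact grid_eleven m n h0.1 h0.2
  by_cases h1 : n % 6 = 3
  · have h := isEMT_famA m (n / 6) (by omega)
    rwa [show 6 * (n / 6) + 3 = n by omega] at h
  by_cases h2 : m % 6 = 3
  · have h := isEMT_famA n (m / 6) (by omega)
    rw [show 6 * (m / 6) + 3 = m by omega] at h
    exact isEMT_grid_symm h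
  by_cases h3 : n % 6 = 1
  · have h := isEMT_famB m (n / 6) (by omega) (by omega)
    rwa [show 6 * (n / 6) + 1 = n by omega] at h
  by_cases h4 : m % 6 = 1
  · have h := isEMT_famB n (m / 6) (by omega) (by omega)
    rw [show 6 * (m / 6) + 1 = m by omega] at h
    exact isEMT_grid_symm h
  by_cases h5 : m % 12 = 5
  · have h := isEMT_famT5 (m / 4) (n / 6) (by omega)
    rwa [show 2 * (m / 4) + 1 + 2 * (m / 4) = m by omega,
      show 6 * (n / 6) + 5 = n by omega] at h
  · have h := isEMT_famT5 (n / 4) (m / 6) (by omega)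
    rw [show 2 * (n / 4) + 1 + 2 * (n / 4) = n by omega,
      show 6 * (m / 6) + 5 = m by omega] at h
    exact isEMT_grid_symm h

/-- both dimensions even -/
theorem grid_even (m n : ℕ) (hm : 1 ≤ m) (hn : 1 ≤ n) (hme : m % 2 = 0) (hne : n % 2 = 0) :
    IsEMT (grid m n) := by
  by_cases a0 : m % 12 = 6 ∧ n % 12 = 6 ∧ 18 ≤ m ∧ 18 ≤ n
  · exact grid_six m n a0.1 a0.2.1 a0.2.2.2
  by_cases a1 : n = 2
  · have h := isEMT_famTwo (m / 2) (by omega)
    rwa [show 2 * (m / 2) = m by omega, ← a1] at h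
  by_cases a2 : m = 2
  · have h := isEMT_famTwo (n / 2) (by omega)
    rw [show 2 * (n / 2) = n by omega, ← a2] at h
    exact isEMT_grid_symm h
  by_cases a3 : n % 6 = 2
  · have h := isEMT_famC (m / 2) (n / 6) (by omega) (by omega)
    rwa [show 2 * (m / 2) = m by omega, show 6 * (n / 6) + 2 = n by omega] at h
  by_cases a4 : m % 6 = 2
  · have h := isEMT_famC (n / 2) (m / 6) (by omega) (by omega)
    rw [show 2 * (n / 2) = n by omega, show 6 * (m / 6) + 2 = m by omega] at h
    exact isEMT_grid_symm h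
  by_cases a5 : n % 6 = 4 ∧ 10 ≤ n
  · have h := isEMT_famD (m / 2) (n / 6) (by omega) (by omega)
    rwa [show 2 * (m / 2) = m by omega, show 6 * (n / 6) + 4 = n by omega] at h
  by_cases a6 : m % 6 = 4 ∧ 10 ≤ m
  · have h := isEMT_famD (n / 2) (m / 6) (by omega) (by omega)
    rw [show 2 * (n / 2) = n by omega, show 6 * (m / 6) + 4 = m by omega] at h
    exact isEMT_grid_symm h
  by_cases a7 : m = 4 ∧ n = 4
  · rw [a7.1, a7.2]; exact isEMT_four_four
  by_cases a8 : m % 4 = 0 ∧ n % 6 = 0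
  · have h := isEMT_famT0 (m / 4) (n / 6) (by omega) (by omega)
    rwa [show 2 * (m / 4) + 2 * (m / 4) = m by omega, show 6 * (n / 6) = n by omega] at h
  by_cases a9 : n % 4 = 0 ∧ m % 6 = 0
  · have h := isEMT_famT0 (n / 4) (m / 6) (by omega) (by omega)
    rw [show 2 * (n / 4) + 2 * (n / 4) = n by omega, show 6 * (m / 6) = m by omega] at h
    exact isEMT_grid_symm h
  by_cases a10 : n = 6
  · have h := isEMT_famS (m / 2) (by omega)
    rwa [show 2 * (m / 2) = m by omega, ← a10] at h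
  · have a11 : m = 6 := by omega
    have h := isEMT_famS (n / 2) (by omega)
    rw [show 2 * (n / 2) = n by omega, ← a11] at h
    exact isEMT_grid_symm h

/-- **Theorem.**  The grid `P_m □ P_n` is edge-magic total for all `m, n ≥ 1`. -/
theorem result (m n : ℕ) (hm : 1 ≤ m) (hn : 1 ≤ n) : IsEMT (pathGraph m □ pathGraph n) := by
  by_cases h1 : n = 1
  · rw [h1]; exact isEMT_path m hm
  by_cases h2 : m = 1
  · rw [h2]; exact isEMT_grid_symm (isEMT_path n hn)
  rcases Nat.mod_two_eq_zero_or_one m with p | p <;>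
    rcases Nat.mod_two_eq_zero_or_one n with p' | p'
  · exact grid_even m n hm hn p p'
  · exact isEMT_of_odd_add m n hm hn (Nat.odd_iff.2 (by omega))
  · exact isEMT_of_odd_add m n hm hn (Nat.odd_iff.2 (by omega))
  · exact grid_odd m n (by omega) (by omega) p p'

end Pool.Agent.Results.MP_5186fc_co.AllGrids
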